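import Pool.Agent.helper52.HY.Spec

set_option autoImplicit false

open Complex Metric Set Filter Topology MeasureTheory
open Pool.Agent.helper98.ILF Pool.Agent.helper16.Multibrot

noncomputable section

namespace HY

theorem FIT : FIT_stmt := by
  intro n c φ l₀ y j i H hF q l hq hql hlj x hx
  induction l, hql using Nat.le_induction with
  | base => simp
  | succ l hl ih =>
    have h1 := ih (by omega)
    have h2 := hF.rel l (by omega) (by omega) x hx
    have e : l + 1 - q = (l - q) + 1 := by omega
    rw [e, Function.iterate_succ_apply', h1, h2]

end HY
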